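import Pool.Agent.MP_b9875a_co.H99.Spec

/-!
Row PROJ: a random sign vector keeps half of the energy and stretches no difference too much.
-/

namespace Pool.Agent.MP_b9875a_co.H1

open Finset

/-- The sign of a Boolean. -/
def sg (b : Bool) : ℝ := if b then 1 else -1

lemma sg_mul_self (b : Bool) : sg b * sg b = 1 := by cases b <;> simp [sg]

lemma sg_not (b : Bool) : sg (!b) = -sg b := by cases b <;> simp [sg]

variable {Q : Type} [Fintype Q] [DecidableEq Q]

lemma sum_sg_mul (q q' : Q) : ∑ ε : Q → Bool, sg (ε q) * sg (ε q') =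
    if q = q' then (Fintype.card (Q → Bool) : ℝ) else 0 := by
  split_ifs with h
  · subst h
    simp only [sg_mul_self, sum_const, card_univ, nsmul_eq_mul, mul_one]
  · refine sum_involution (fun ε _ => Function.update ε q (!ε q)) (fun ε _ => ?_)
      (fun ε _ _ he => ?_) (fun _ _ => mem_univ _) (fun ε _ => ?_)
    · rw [Function.update_self, Function.update_of_ne (Ne.symm h), sg_not]
      ring
    · have := congrFun he q
      rw [Function.update_self] at this
      exact Bool.not_ne_self _ this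
    · funext j
      by_cases hj : j = q
      · subst hj
        simp
      · simp [hj]

lemma sum_sq (a : Q → ℝ) : ∑ ε : Q → Bool, (∑ q, a q * sg (ε q)) ^ 2 =
    (Fintype.card (Q → Bool) : ℝ) * ∑ q, a q ^ 2 := by
  have h1 : ∀ ε : Q → Bool, (∑ q, a q * sg (ε q)) ^ 2 =
      ∑ q, ∑ q', a q * a q' * (sg (ε q) * sg (ε q')) := by
    intro ε
    rw [sq, sum_mul_sum]
    exact sum_congr rfl fun q _ => sum_congr rfl fun q' _ => by ring
  simp only [h1]
  rw [sum_comm, mul_sum]
  refine sum_congr rfl fun q _ => ?_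
  rw [sum_comm]
  simp only [← mul_sum, sum_sg_mul, mul_ite, mul_zero, sum_ite_eq, mem_univ, if_true]
  ring

omit [DecidableEq Q] in
lemma sq_le (a : Q → ℝ) (ε : Q → Bool) :
    (∑ q, a q * sg (ε q)) ^ 2 ≤ (Fintype.card Q : ℝ) * ∑ q, a q ^ 2 := by
  have h := sum_mul_sq_le_sq_mul_sq univ a (fun q => sg (ε q))
  have h2 : ∑ q, sg (ε q) ^ 2 = (Fintype.card Q : ℝ) := by
    simp only [sq, sg_mul_self, sum_const, card_univ, nsmul_eq_mul, mul_one]
  rw [h2, mul_comm] at h
  exact h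

lemma sum_exp (a : Q → ℝ) : ∑ ε : Q → Bool, Real.exp (∑ q, a q * sg (ε q)) ≤
    (Fintype.card (Q → Bool) : ℝ) * Real.exp ((∑ q, a q ^ 2) / 2) := by
  simp only [Real.exp_sum]
  rw [← Fintype.prod_sum (fun (q : Q) (b : Bool) => Real.exp (a q * sg b)), sum_div, Real.exp_sum]
  have hc : (Fintype.card (Q → Bool) : ℝ) = ∏ _q : Q, (2 : ℝ) := by simp
  rw [hc, ← prod_mul_distrib]
  refine prod_le_prod (fun q _ => sum_nonneg fun b _ => (Real.exp_pos _).le) fun q _ => ?_
  have h := Real.cosh_le_exp_half_sq (a q)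
  rw [Real.cosh_eq] at h
  rw [Fintype.sum_bool]
  simp only [sg, if_true, Bool.false_eq_true, if_false, mul_one, mul_neg]
  linarith

lemma card_bad (a : Q → ℝ) {B : ℝ} (hB : 0 < B) :
    ((univ.filter fun ε : Q → Bool =>
      B * ∑ q, a q ^ 2 < (∑ q, a q * sg (ε q)) ^ 2).card : ℝ) ≤
      2 * (Fintype.card (Q → Bool) : ℝ) * Real.exp (-(B / 2)) := by
  have hA0 : 0 ≤ ∑ q, a q ^ 2 := sum_nonneg fun q _ => sq_nonneg _
  rcases hA0.eq_or_lt with hA | hA
  · rw [filter_eq_empty_iff.mpr, card_empty, Nat.cast_zero]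
    · positivity
    · intro ε _ h
      have := sq_le a ε
      rw [← hA] at h this
      linarith
  set A := ∑ q, a q ^ 2 with hAdef
  set t := √(B / A) with ht
  have ht2 : t ^ 2 = B / A := Real.sq_sqrt (div_pos hB hA).le
  have h1 := sum_exp fun q => t * a q
  have h2 := sum_exp fun q => -t * a q
  have e1 : ∑ q, (t * a q) ^ 2 = B := by
    simp only [mul_pow, ← mul_sum]
    rw [ht2, ← hAdef, div_mul_cancel₀ _ hA.ne']
  have e2 : ∑ q, (-t * a q) ^ 2 = B := by
    simp only [neg_mul, neg_sq]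
    exact e1
  rw [e1] at h1
  rw [e2] at h2
  have h3 : ∀ ε ∈ univ.filter fun ε : Q → Bool => B * A < (∑ q, a q * sg (ε q)) ^ 2,
      Real.exp B ≤ Real.exp (∑ q, t * a q * sg (ε q)) + Real.exp (∑ q, -t * a q * sg (ε q)) := by
    intro ε hε
    have hlt := (mem_filter.mp hε).2
    have s1 : ∑ q, t * a q * sg (ε q) = t * ∑ q, a q * sg (ε q) := by
      rw [mul_sum]
      exact sum_congr rfl fun q _ => by ring
    have s2 : ∑ q, -t * a q * sg (ε q) = -(t * ∑ q, a q * sg (ε q)) := by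
      rw [← neg_mul, mul_sum]
      exact sum_congr rfl fun q _ => by ring
    rw [s1, s2]
    have hsq : B ^ 2 ≤ (t * ∑ q, a q * sg (ε q)) ^ 2 := by
      rw [mul_pow, ht2, div_mul_eq_mul_div, le_div_iff₀ hA]
      nlinarith
    have habs : B ≤ |t * ∑ q, a q * sg (ε q)| := by
      have := sq_le_sq.mp hsq
      rwa [abs_of_pos hB] at this
    rcases le_abs.mp habs with h | h
    · have := Real.exp_le_exp.mpr h
      linarith [Real.exp_pos (-(t * ∑ q, a q * sg (ε q)))]
    · have := Real.exp_le_exp.mpr h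
      linarith [Real.exp_pos (t * ∑ q, a q * sg (ε q))]
  have h4 := card_nsmul_le_sum _ _ _ h3
  have h5 := sum_le_sum_of_subset_of_nonneg (f := fun ε : Q → Bool =>
    Real.exp (∑ q, t * a q * sg (ε q)) + Real.exp (∑ q, -t * a q * sg (ε q)))
    (filter_subset (fun ε : Q → Bool => B * A < (∑ q, a q * sg (ε q)) ^ 2) univ)
    (fun ε _ _ => by positivity)
  rw [sum_add_distrib (s := univ)] at h5
  rw [nsmul_eq_mul] at h4
  have h6 : Real.exp (B / 2) = Real.exp (-(B / 2)) * Real.exp B := by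
    rw [← Real.exp_add]
    exact congrArg Real.exp (by ring)
  rw [h6] at h1 h2
  refine le_of_mul_le_mul_right ?_ (Real.exp_pos B)
  linarith

theorem proj : H99.PL.ProjStmt := by
  intro Y Q _ _ l x hY hQ
  classical
  have hΦ0 : 0 ≤ ∑ y, ∑ q, x y q ^ 2 := sum_nonneg fun y _ => sum_nonneg fun q _ => sq_nonneg _
  rcases hΦ0.eq_or_lt with hΦ | hΦ
  · refine ⟨fun _ => 0, ?_, fun y y' => ?_⟩
    · rw [← hΦ]
      positivity
    · simp only [mul_zero, sum_const_zero]
      have : 0 ≤ ∑ q, (x y q - x y' q) ^ 2 := sum_nonneg fun q _ => sq_nonneg _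
      have h0 : (0 : ℝ) ^ 2 = 0 := by norm_num
      rw [h0]
      positivity
  set Φ := ∑ y, ∑ q, x y q ^ 2 with hΦdef
  set N : ℝ := (Fintype.card (Q → Bool) : ℝ) with hN
  have hNpos : 0 < N := by
    rw [hN]
    exact_mod_cast Fintype.card_pos
  set f : (Q → Bool) → ℝ := fun ε => ∑ y, (∑ q, x y q * sg (ε q)) ^ 2 with hf
  have hsum : ∑ ε, f ε = N * Φ := by
    simp only [hf]
    rw [sum_comm, hΦdef, mul_sum]
    exact sum_congr rfl fun y _ => sum_sq (x y)
  have hY' : (Fintype.card Y : ℝ) ≤ 2 ^ l := by exact_mod_cast hY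
  have hQ' : (Fintype.card Q : ℝ) ≤ 2 ^ l := by exact_mod_cast hQ
  have hfle : ∀ ε, f ε ≤ 2 ^ l * Φ := by
    intro ε
    refine le_trans ?_ (mul_le_mul_of_nonneg_right hQ' hΦ.le)
    rw [hΦdef, mul_sum]
    exact sum_le_sum fun y _ => sq_le (x y) ε
  set bad : Finset (Q → Bool) := (univ : Finset (Y × Y)).biUnion fun p =>
    univ.filter fun ε : Q → Bool => 6 * ((l : ℝ) + 1) * ∑ q, (x p.1 q - x p.2 q) ^ 2 <
      (∑ q, (x p.1 q - x p.2 q) * sg (ε q)) ^ 2 with hbad
  have hexp : Real.exp (-(6 * ((l : ℝ) + 1) / 2)) * 8 ^ (l + 1) ≤ 1 := by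
    have h8 : (8 : ℝ) ≤ Real.exp 3 := by
      have h1 : (2 : ℝ) ≤ Real.exp 1 := by linarith [Real.add_one_le_exp (1 : ℝ)]
      have h2 := pow_le_pow_left₀ (by norm_num) h1 3
      rw [← Real.exp_nat_mul] at h2
      norm_num at h2 ⊢
      exact h2
    have h9 := pow_le_pow_left₀ (by norm_num) h8 (l + 1)
    rw [← Real.exp_nat_mul] at h9
    refine (mul_le_mul_of_nonneg_left h9 (Real.exp_pos _).le).trans (le_of_eq ?_)
    rw [← Real.exp_add, Real.exp_eq_one_iff]
    push_cast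
    ring
  have hcard : (bad.card : ℝ) ≤
      2 ^ l * 2 ^ l * (2 * N * Real.exp (-(6 * ((l : ℝ) + 1) / 2))) := by
    have h1 : (bad.card : ℝ) ≤ ∑ p : Y × Y, ((univ.filter fun ε : Q → Bool =>
        6 * ((l : ℝ) + 1) * ∑ q, (x p.1 q - x p.2 q) ^ 2 <
          (∑ q, (x p.1 q - x p.2 q) * sg (ε q)) ^ 2).card : ℝ) := by
      rw [← Nat.cast_sum, Nat.cast_le, hbad]
      exact card_biUnion_le
    refine h1.trans ((sum_le_card_nsmul _ _ _ fun p _ =>
      card_bad (fun q => x p.1 q - x p.2 q) (by positivity)).trans ?_)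
    rw [nsmul_eq_mul, card_univ, Fintype.card_prod, Nat.cast_mul]
    exact mul_le_mul_of_nonneg_right (mul_le_mul hY' hY' (by positivity) (by positivity))
      (by positivity)
  have hbadsum : ∑ ε ∈ bad, f ε ≤ N * Φ / 4 := by
    refine (sum_le_card_nsmul _ _ _ fun ε _ => hfle ε).trans ?_
    rw [nsmul_eq_mul]
    refine (mul_le_mul_of_nonneg_right hcard (by positivity)).trans ?_
    have e8 : (8 : ℝ) ^ (l + 1) = 8 * (2 ^ l * 2 ^ l * 2 ^ l) := by
      rw [← mul_pow, ← mul_pow, pow_succ]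
      norm_num [mul_comm]
    rw [e8] at hexp
    have := mul_le_mul_of_nonneg_left hexp (mul_pos hNpos hΦ).le
    linarith
  by_contra hcon
  have hgood : ∀ ε ∈ badᶜ, f ε ≤ Φ / 2 := by
    intro ε hε
    by_contra hlt
    refine hcon ⟨fun q => sg (ε q), ?_, fun y y' => ?_⟩
    · have : Φ / 2 < f ε := not_le.mp hlt
      simp only [hf] at this
      linarith
    · by_contra hp
      exact (mem_compl.mp hε) (mem_biUnion.mpr ⟨(y, y'), mem_univ _,
        mem_filter.mpr ⟨mem_univ _, not_le.mp hp⟩⟩)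
  have h1 := sum_le_card_nsmul _ _ _ hgood
  have h2 : ((badᶜ).card : ℝ) ≤ N := by
    rw [hN]
    exact_mod_cast card_le_univ _
  rw [nsmul_eq_mul] at h1
  have h3 := mul_le_mul_of_nonneg_right h2 (half_pos hΦ).le
  have h4 := sum_add_sum_compl bad f
  have h5 := mul_pos hNpos hΦ
  linarith

end Pool.Agent.MP_b9875a_co.H1
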